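import Pool.Agent.FHQ.StmtsG

namespace Pool.Agent.FHQ.H25

theorem dsn_step {p : ℕ} [Fact p.Prime] {K : Type} (m : ℕ) (P : Pc p K) (g : ℤ) (q : ℕ)
    (hq : g - (q + 1) * m ∉ P.exc m) (b : ZMod p) (hb : b ≠ 0) (hX : P.X b (g - q * m))
    (w : ZMod p) (hw : w ≠ 0) : P.X (b * w ^ m) (g - ((q + 1 : ℕ) : ℤ) * m) := by
  have hne : b * w ^ m ≠ 0 := mul_ne_zero hb (pow_ne_zero _ hw)
  have h1 : P.X (b * w ^ m) (g - (q + 1) * m) ↔
      P.X (b * w ^ m * (w⁻¹) ^ m) (g - (q + 1) * m + m) := by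
    by_contra h
    exact hq ⟨b * w ^ m, w⁻¹, hne, inv_ne_zero hw, h⟩
  have h2 : b * w ^ m * (w⁻¹) ^ m = b := by
    rw [mul_assoc, ← mul_pow, mul_inv_cancel₀ hw, one_pow, mul_one]
  have h3 : g - (q + 1) * m + m = g - (q : ℤ) * m := by ring
  rw [h2, h3] at h1
  have h4 := h1.2 hX
  have h5 : g - ((q + 1 : ℕ) : ℤ) * m = g - (q + 1) * m := by push_cast; ring
  rw [h5]
  exact h4

theorem dsn_down {p : ℕ} [Fact p.Prime] {K : Type} (m : ℕ) (P : Pc p K) (a : ZMod p) (g : ℤ)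
    (ha : a ≠ 0) (hX : P.X a g) (q : ℕ) (hq : ∀ k < q, g - ((k : ℤ) + 1) * m ∉ P.exc m) :
    ∀ q' : ℕ, 1 ≤ q' → q' ≤ q → ∀ u : ZMod p, u ≠ 0 → P.X (a * u ^ m) (g - q' * m) := by
  intro q'
  induction q' with
  | zero => intro h; omega
  | succ n ih =>
    intro _ hn u hu
    rcases Nat.eq_zero_or_pos n with h0 | h0
    · subst h0
      have h := dsn_step m P g 0 (by simpa using hq 0 (by omega)) a ha (by simpa using hX) u hu
      exact h
    · have h1 := ih h0 (by omega) u hu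
      have h := dsn_step m P g n (hq n (by omega)) (a * u ^ m)
        (mul_ne_zero ha (pow_ne_zero _ hu)) h1 1 one_ne_zero
      rw [one_pow, mul_one] at h
      exact h

theorem dsn : DsnStmt := by
  intro p _ K m P a g ha hX
  classical
  by_cases h : ∃ q : ℕ, g - ((q : ℤ) + 1) * m ∈ P.exc m
  · right
    refine ⟨Nat.find h, Nat.find_spec h, ?_⟩
    exact dsn_down m P a g ha hX (Nat.find h) (fun k hk => Nat.find_min h hk)
  · left
    intro q hq u hu
    refine dsn_down m P a g ha hX q (fun k _ hk => h ⟨k, hk⟩) q hq le_rfl u hu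

end Pool.Agent.FHQ.H25
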