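import Pool.Agent.FHQ.StmtsP

/-!
# Squad FHQ, row RES: the residue map
-/

open scoped BigOperators

set_option linter.unusedSectionVars false

noncomputable section

namespace Pool.Agent.FHQ.H25

open Polynomial

section

variable {p : ℕ} [Fact p.Prime] {K : Type} [Field K] (A : AcF0 p K)

theorem ac_z : A.ac 0 = 0 := (A.ac_zero 0).2 rfl

theorem ac_ne {x : K} (hx : x ≠ 0) : A.ac x ≠ 0 := fun h => hx ((A.ac_zero x).1 h)

theorem ac_one : A.ac 1 = 1 := by
  have h := A.ac_mul 1 1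
  rw [mul_one] at h
  have h1 : A.ac 1 ≠ 0 := ac_ne A one_ne_zero
  exact (mul_eq_left₀ h1).1 h.symm

omit [Fact p.Prime] in
theorem v_one : A.v 1 = 0 := by
  have h := A.v_mul 1 1 one_ne_zero one_ne_zero
  rw [mul_one] at h
  omega

theorem v_neg_one : A.v (-1) = 0 := by
  have h1 : (-1 : K) ≠ 0 := neg_ne_zero.2 one_ne_zero
  have h := A.v_mul (-1) (-1) h1 h1
  rw [neg_mul_neg, mul_one, v_one] at h
  omega

theorem ac_neg_one : A.ac (-1) = -1 := by
  have h1 : (-1 : K) ≠ 0 := neg_ne_zero.2 one_ne_zero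
  by_contra h
  have h2 : A.ac 1 + A.ac (-1) ≠ 0 := by
    rw [ac_one]
    intro h3
    apply h
    exact (neg_eq_of_add_eq_zero_right h3).symm
  have h3 := (A.add_eq 1 (-1) one_ne_zero h1 (by rw [v_one, v_neg_one]) h2).2
  rw [add_neg_cancel, ac_z] at h3
  exact h2 h3.symm

theorem neg (x : K) : A.ac (-x) = -A.ac x ∧ A.v (-x) = A.v x := by
  by_cases hx : x = 0
  · subst hx
    rw [neg_zero, ac_z, neg_zero]
    exact ⟨rfl, rfl⟩
  · have h1 : (-1 : K) ≠ 0 := neg_ne_zero.2 one_ne_zero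
    have h2 : -x = (-1) * x := by ring
    rw [h2, A.ac_mul, A.v_mul _ _ h1 hx, ac_neg_one, v_neg_one]
    exact ⟨by ring, by ring⟩

theorem inv {x : K} (hx : x ≠ 0) : A.ac x⁻¹ = (A.ac x)⁻¹ ∧ A.v x⁻¹ = -A.v x := by
  have h1 : x * x⁻¹ = 1 := mul_inv_cancel₀ hx
  constructor
  · have h2 := A.ac_mul x x⁻¹
    rw [h1, ac_one] at h2
    exact (inv_eq_of_mul_eq_one_right h2.symm).symm
  · have h2 := A.v_mul x x⁻¹ hx (inv_ne_zero hx)
    rw [h1, v_one] at h2
    omega

theorem res_z : A.res 0 = 0 := by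
  unfold AcF0.res
  rw [if_neg]
  rintro ⟨h, -⟩
  exact h rfl

omit [Fact p.Prime] in
theorem res_of {x : K} (hx : x ≠ 0) (h : A.v x = 0) : A.res x = A.ac x := by
  unfold AcF0.res
  rw [if_pos ⟨hx, h⟩]

theorem res_of_ne {x : K} (h : A.v x ≠ 0) : A.res x = 0 := by
  unfold AcF0.res
  rw [if_neg]
  rintro ⟨-, h1⟩
  exact h h1

theorem res_neg (x : K) : A.res (-x) = -A.res x := by
  by_cases hx : x = 0
  · subst hx
    rw [neg_zero, res_z, neg_zero]
  · by_cases h : A.v x = 0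
    · rw [res_of A hx h, res_of A (neg_ne_zero.2 hx) (by rw [(neg A x).2, h]), (neg A x).1]
    · rw [res_of_ne A h, res_of_ne A (by rw [(neg A x).2]; exact h), neg_zero]

theorem add_aux {x y : K} (hx : x ≠ 0) (hy : y ≠ 0) (hx0 : 0 ≤ A.v x) (h : A.v x < A.v y) :
    A.Int (x + y) ∧ A.res (x + y) = A.res x + A.res y := by
  obtain ⟨h1, h2⟩ := A.add_lt x y hx hy h
  refine ⟨Or.inr (by rw [h1]; exact hx0), ?_⟩
  have h3 : x + y ≠ 0 := by
    intro h4
    rw [h4, ac_z] at h2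
    exact ac_ne A hx h2.symm
  rw [res_of_ne A (show A.v y ≠ 0 by omega), add_zero]
  by_cases h0 : A.v x = 0
  · rw [res_of A hx h0, res_of A h3 (by rw [h1, h0]), h2]
  · rw [res_of_ne A h0, res_of_ne A (by rw [h1]; exact h0)]

theorem add {x y : K} (hx : A.Int x) (hy : A.Int y) :
    A.Int (x + y) ∧ A.res (x + y) = A.res x + A.res y := by
  by_cases hx0 : x = 0
  · subst hx0
    rw [zero_add, res_z, zero_add]
    exact ⟨hy, rfl⟩
  by_cases hy0 : y = 0
  · subst hy0
    rw [add_zero, res_z, add_zero]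
    exact ⟨hx, rfl⟩
  have hx1 : 0 ≤ A.v x := hx.resolve_left hx0
  have hy1 : 0 ≤ A.v y := hy.resolve_left hy0
  rcases lt_trichotomy (A.v x) (A.v y) with h | h | h
  · exact add_aux A hx0 hy0 hx1 h
  · by_cases h1 : A.ac x + A.ac y = 0
    · have h2 : A.res x + A.res y = 0 := by
        by_cases h0 : A.v x = 0
        · rw [res_of A hx0 h0, res_of A hy0 (h ▸ h0), h1]
        · rw [res_of_ne A h0, res_of_ne A (h ▸ h0), add_zero]
      rcases A.add_gt x y hx0 hy0 h h1 with h3 | h3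
      · rw [h3, res_z, h2]
        exact ⟨Or.inl rfl, rfl⟩
      · rw [h2, res_of_ne A (show A.v (x + y) ≠ 0 by omega)]
        exact ⟨Or.inr (by omega), rfl⟩
    · obtain ⟨h2, h3⟩ := A.add_eq x y hx0 hy0 h h1
      refine ⟨Or.inr (by omega), ?_⟩
      have h4 : x + y ≠ 0 := by
        intro h5
        rw [h5, ac_z] at h3
        exact h1 h3.symm
      by_cases h0 : A.v x = 0
      · rw [res_of A hx0 h0, res_of A hy0 (h ▸ h0), res_of A h4 (by rw [h2, h0]), h3]
      · rw [res_of_ne A h0, res_of_ne A (show A.v y ≠ 0 by omega),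
          res_of_ne A (show A.v (x + y) ≠ 0 by omega), add_zero]
  · have h1 := add_aux A hy0 hx0 hy1 h
    rw [add_comm x y, add_comm (A.res x)]
    exact h1

theorem mul {x y : K} (hx : A.Int x) (hy : A.Int y) :
    A.Int (x * y) ∧ A.res (x * y) = A.res x * A.res y := by
  by_cases hx0 : x = 0
  · subst hx0
    rw [zero_mul, res_z, zero_mul]
    exact ⟨Or.inl rfl, rfl⟩
  by_cases hy0 : y = 0
  · subst hy0
    rw [mul_zero, res_z, mul_zero]
    exact ⟨Or.inl rfl, rfl⟩
  have hx1 : 0 ≤ A.v x := hx.resolve_left hx0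
  have hy1 : 0 ≤ A.v y := hy.resolve_left hy0
  have hv := A.v_mul x y hx0 hy0
  refine ⟨Or.inr (by omega), ?_⟩
  by_cases h1 : A.v x = 0
  · by_cases h2 : A.v y = 0
    · rw [res_of A hx0 h1, res_of A hy0 h2, res_of A (mul_ne_zero hx0 hy0) (by omega), A.ac_mul]
    · rw [res_of_ne A h2, res_of_ne A (show A.v (x * y) ≠ 0 by omega), mul_zero]
  · rw [res_of_ne A h1, res_of_ne A (show A.v (x * y) ≠ 0 by omega), zero_mul]

theorem pow {x : K} (hx : A.Int x) (n : ℕ) : A.Int (x ^ n) ∧ A.res (x ^ n) = A.res x ^ n := by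
  induction n with
  | zero =>
    rw [pow_zero, pow_zero, res_of A one_ne_zero (v_one A), ac_one]
    exact ⟨Or.inr (v_one A).ge, rfl⟩
  | succ n ih =>
    have h := mul A ih.1 hx
    rw [pow_succ, pow_succ, h.2, ih.2]
    exact ⟨h.1, rfl⟩

theorem sum {ι : Type*} (s : Finset ι) (f : ι → K) (hf : ∀ i ∈ s, A.Int (f i)) :
    A.Int (∑ i ∈ s, f i) ∧ A.res (∑ i ∈ s, f i) = ∑ i ∈ s, A.res (f i) := by
  classical
  induction s using Finset.induction_on with
  | empty =>
    rw [Finset.sum_empty, Finset.sum_empty, res_z]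
    exact ⟨Or.inl rfl, rfl⟩
  | insert a s ha ih =>
    rw [Finset.sum_insert ha, Finset.sum_insert ha]
    have h1 := ih fun i hi => hf i (Finset.mem_insert_of_mem hi)
    have h2 := add A (hf a (Finset.mem_insert_self _ _)) h1.1
    rw [h2.2, h1.2]
    exact ⟨h2.1, rfl⟩

theorem res_iff {x : K} (hx : A.Int x) : A.res x = 0 ↔ x = 0 ∨ 0 < A.v x := by
  by_cases hx0 : x = 0
  · subst hx0
    rw [res_z]
    exact ⟨fun _ => Or.inl rfl, fun _ => rfl⟩
  have hx1 : 0 ≤ A.v x := hx.resolve_left hx0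
  by_cases h : A.v x = 0
  · rw [res_of A hx0 h]
    constructor
    · intro h1
      exact absurd h1 (ac_ne A hx0)
    · rintro (h1 | h1)
      · exact absurd h1 hx0
      · omega
  · rw [res_of_ne A h]
    exact ⟨fun _ => Or.inr (by omega), fun _ => rfl⟩

omit [Fact p.Prime] in
theorem coeff_red (P : K[X]) (i : ℕ) : (A.red P).coeff i = A.res (P.coeff i) := by
  classical
  unfold AcF0.red
  rw [finsetSum_coeff]
  have h1 : ∀ j ∈ P.support, (monomial j (A.res (P.coeff j))).coeff i =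
      if j = i then A.res (P.coeff j) else 0 := fun j _ => coeff_monomial
  rw [Finset.sum_congr rfl h1, Finset.sum_ite_eq']
  split_ifs with h
  · rfl
  · rw [notMem_support_iff.1 h]
    symm
    unfold AcF0.res
    rw [if_neg]
    rintro ⟨h2, -⟩
    exact h2 rfl

theorem eval_red (P : K[X]) (x : K) (hP : ∀ i, A.Int (P.coeff i)) (hx : A.Int x) :
    A.Int (P.eval x) ∧ A.res (P.eval x) = (A.red P).eval (A.res x) := by
  have h1 : P.eval x = ∑ i ∈ P.support, P.coeff i * x ^ i := by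
    rw [eval_eq_sum]
    rfl
  have h2 : (A.red P).eval (A.res x) = ∑ i ∈ P.support, A.res (P.coeff i) * A.res x ^ i := by
    unfold AcF0.red
    rw [eval_finsetSum]
    refine Finset.sum_congr rfl fun i _ => ?_
    rw [eval_monomial]
  have h3 := sum A P.support (fun i => P.coeff i * x ^ i) fun i _ =>
    (mul A (hP i) (pow A hx i).1).1
  rw [h1, h2, h3.2]
  refine ⟨h3.1, Finset.sum_congr rfl fun i _ => ?_⟩
  rw [(mul A (hP i) (pow A hx i).1).2, (pow A hx i).2]

end

theorem res : ResStmt := fun _ _ _ _ A =>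
  ⟨ac_one A, v_one A, neg A, fun _ hx => inv A hx,
    fun _ _ hx hy => ⟨(add A hx hy).1, (add A hx hy).2, (mul A hx hy).1, (mul A hx hy).2⟩,
    fun _ hx => res_iff A hx, coeff_red A, eval_red A⟩

end Pool.Agent.FHQ.H25
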