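import Pool.Agent.Helper25_FHQ.UBO
import Pool.Agent.Helper25_FHQ.RES

/-!
# Squad FHQ, row RTZ: the elimination for constant and for linear polynomials
-/

open scoped BigOperators

set_option linter.unusedSectionVars false

noncomputable section

namespace Pool.Agent.FHQ.H25

open Polynomial

theorem ub_false {r : ℕ} : UB r (fun _ _ _ => False) :=
  ub_congr (ub_not (ub_R (r := r) rd_true)) fun _ _ _ => by simp

theorem ub_all {r : ℕ} {ι : Type*} [Fintype ι] (C : ι → Cond r) (h : ∀ i, UB r (C i)) :
    UB r (fun p a g => ∀ i, C i p a g) := by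
  classical
  have h1 : ∀ s : Finset ι, UB r (fun p a g => ∀ i ∈ s, C i p a g) := by
    intro s
    induction s using Finset.induction_on with
    | empty => exact ub_congr (ub_R rd_true) fun _ _ _ => by simp
    | insert i s _ ih =>
      exact ub_congr (ub_and (h i) ih) fun p a g => by rw [Finset.forall_mem_insert]
  exact ub_congr (h1 Finset.univ) fun p a g => by simp

theorem ub_some {r : ℕ} {ι : Type*} [Fintype ι] (C : ι → Cond r) (h : ∀ i, UB r (C i)) :
    UB r (fun p a g => ∃ i, C i p a g) := by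
  refine ub_congr (ub_not (ub_all (fun i p a g => ¬ C i p a g) fun i => ub_not (h i))) ?_
  intro p a g
  rw [not_forall]
  simp only [not_not]

/-- the condition on `(z, ac b, ac H_i; h, v b, v H_i)` for the set `T` of the `i` with
`H_i = 0` -/
def ET {r : ℕ} (C : Cond r) (N : ℕ) (T : Finset (Fin r)) : Cond (r + 2) := fun p a g =>
  (a 0 * a 1 = 1 ∧ ∀ i : Fin r, (i ∈ T ↔ a i.succ.succ = 0)) ∧
    C p (fun i => a i.succ.succ * a 0 ^ N)
      (fun i => ∑ j, (if i ∈ T then 0 else
        (if j = i.succ.succ then 1 else 0) - (if j = 1 then (N : ℤ) else 0)) * g j + 0)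

theorem ub_ET (ubs : UbsStmt) {r : ℕ} {C : Cond r} (hC : UB r C) (N : ℕ) (T : Finset (Fin r)) :
    UB (r + 2) (ET C N T) := by
  refine ub_and (ub_and ?_ ?_) ?_
  · refine ub_congr (ub_R (RD.eq (MvPolynomial.X 0 * MvPolynomial.X 1 - 1))) fun p a g => ?_
    rw [map_sub, map_mul, MvPolynomial.aeval_X, MvPolynomial.aeval_X, map_one, sub_eq_zero]
  · refine ub_all _ fun i => ?_
    have h1 : UB (r + 2) (fun p a _ => a i.succ.succ = 0) := by
      refine ub_congr (ub_R (RD.eq (MvPolynomial.X i.succ.succ))) fun p a g => ?_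
      rw [MvPolynomial.aeval_X]
    by_cases hi : i ∈ T
    · exact ub_congr h1 fun p a g => by simp [hi]
    · exact ub_congr (ub_not h1) fun p a g => by simp [hi]
  · refine ub_congr (ubs r (r + 2) C hC
      (fun i => MvPolynomial.X i.succ.succ * MvPolynomial.X 0 ^ N)
      (fun i j => if i ∈ T then 0 else
        (if j = i.succ.succ then 1 else 0) - (if j = 1 then (N : ℤ) else 0)) (fun _ => 0))
      fun p a g => ?_
    have h1 : ∀ i : Fin r, MvPolynomial.aeval a
        (MvPolynomial.X i.succ.succ * MvPolynomial.X 0 ^ N : MvPolynomial (Fin (r + 2)) ℤ) =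
        a i.succ.succ * a 0 ^ N := by
      intro i
      rw [map_mul, map_pow, MvPolynomial.aeval_X, MvPolynomial.aeval_X]
    simp only [h1]

section

variable {p : ℕ} [Fact p.Prime] {K : Type} [Field K] (A : AcF0 p K)

theorem ac_pow (x : K) (n : ℕ) : A.ac (x ^ n) = A.ac x ^ n := by
  induction n with
  | zero => rw [pow_zero, pow_zero, ac_one]
  | succ n ih => rw [pow_succ, pow_succ, A.ac_mul, ih]

theorem v_pow {x : K} (hx : x ≠ 0) (n : ℕ) : A.v (x ^ n) = n * A.v x := by
  induction n with
  | zero => rw [pow_zero, v_one]; simp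
  | succ n ih =>
    rw [pow_succ, A.v_mul _ _ (pow_ne_zero _ hx) hx, ih]
    push_cast
    ring

end

theorem eval_lin {n : ℕ} {K : Type} [Field K] (x : Fin n → K)
    (h : Polynomial (MvPolynomial (Fin n) ℤ)) (a b : MvPolynomial (Fin n) ℤ) (N : ℕ)
    (hN : h.natDegree ≤ N) {c : K} (hc : spz x b * c = -spz x a) :
    spz x (∑ k ∈ Finset.range (N + 1), h.coeff k * (-a) ^ k * b ^ (N - k)) =
      spz x b ^ N * (h.map (spz x)).eval c := by
  rw [eval_map, eval₂_eq_sum_range' _ (Nat.lt_succ_of_le hN), Finset.mul_sum, map_sum]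
  refine Finset.sum_congr rfl fun k hk => ?_
  have hk' : k ≤ N := Nat.lt_succ_iff.1 (Finset.mem_range.1 hk)
  rw [map_mul, map_mul, map_pow, map_pow, map_neg, ← hc, mul_pow]
  conv_rhs => rw [← Nat.sub_add_cancel hk', pow_add]
  ring

theorem rtz (ube : UbeStmt) (ubs : UbsStmt) : RtzStmt := by
  intro n
  constructor
  · -- constant polynomials
    intro r G h C _ hG
    refine ⟨0, 0, Fin.elim0, fun _ _ _ => False, ub_false, ?_⟩
    intro p _ K _ A _ x
    refine iff_of_false ?_ id
    rintro ⟨c, hc1, hc2, -⟩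
    rw [eq_C_of_natDegree_le_zero hG, map_C] at hc1 hc2
    rw [eval_C] at hc2
    rw [hc2, C_0] at hc1
    exact hc1 rfl
  · intro r G h C hC hG
    classical
    set a := G.coeff 0 with ha
    set b := G.coeff 1 with hb
    have hG1 : G = Polynomial.C b * X + Polynomial.C a :=
      eq_X_add_C_of_natDegree_le_one hG
    let N : ℕ := Finset.univ.sup fun i => (h i).natDegree
    have hN : ∀ i, (h i).natDegree ≤ N := fun i =>
      Finset.le_sup (f := fun i => (h i).natDegree) (Finset.mem_univ i)
    let H : Fin r → MvPolynomial (Fin n) ℤ := fun i =>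
      ∑ k ∈ Finset.range (N + 1), (h i).coeff k * (-a) ^ k * b ^ (N - k)
    let C' : Cond (r + 1) := fun p a g => ∃ T : Finset (Fin r), ∃ (z : ZMod p) (h : ℤ),
      ET C N T p (Fin.cons z a) (Fin.cons h g)
    have hC' : UB (r + 1) C' := ub_some _ fun T => ube (r + 1) _ (ub_ET ubs hC N T)
    refine ⟨0, r + 1, Fin.cons b H, C', hC', ?_⟩
    intro p hp K _ A _ x
    -- the values
    let B : K := spz x b
    have hval : ∀ c : K, B ≠ 0 → B * c = -spz x a → ∀ i,
        A.ac (((h i).map (spz x)).eval c) = A.ac (spz x (H i)) * (A.ac B)⁻¹ ^ N ∧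
        A.v (((h i).map (spz x)).eval c) = if spz x (H i) = 0 then 0 else
          A.v (spz x (H i)) - N * A.v B := by
      intro c hB hc i
      have h1 : spz x (H i) = B ^ N * ((h i).map (spz x)).eval c :=
        eval_lin x (h i) a b N (hN i) hc
      have hB' : A.ac B ≠ 0 := ac_ne _ hB
      constructor
      · rw [h1, A.ac_mul, ac_pow, inv_pow]
        rw [mul_comm (A.ac B ^ N), mul_assoc, mul_inv_cancel₀ (pow_ne_zero _ hB'), mul_one]
      · by_cases h0 : ((h i).map (spz x)).eval c = 0
        · rw [if_pos (by rw [h1, h0, mul_zero]), h0, A.v_zero]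
        · rw [if_neg (by rw [h1]; exact mul_ne_zero (pow_ne_zero _ hB) h0), h1,
            A.v_mul _ _ (pow_ne_zero _ hB) h0, v_pow _ hB]
          ring
    have hET : ∀ (T : Finset (Fin r)) (z : ZMod p) (g0 : ℤ) (c : K), B ≠ 0 → B * c = -spz x a →
        (∀ i : Fin r, (i ∈ T ↔ spz x (H i) = 0)) → z = (A.ac B)⁻¹ →
        (ET C N T p (Fin.cons z fun j : Fin (r + 1) => A.ac (MvPolynomial.aeval x
            ((Fin.cons b H : Fin (r + 1) → MvPolynomial (Fin n) ℤ) j)))
          (Fin.cons g0 fun j : Fin (r + 1) => A.v (MvPolynomial.aeval x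
            ((Fin.cons b H : Fin (r + 1) → MvPolynomial (Fin n) ℤ) j))) ↔
          C p (fun i => A.ac (((h i).map (spz x)).eval c))
            (fun i => A.v (((h i).map (spz x)).eval c))) := by
      intro T z g0 c hB hc hT hz
      unfold ET
      have e1 : ∀ i : Fin r, (Fin.cons z fun j : Fin (r + 1) => A.ac (MvPolynomial.aeval x
            ((Fin.cons b H : Fin (r + 1) → MvPolynomial (Fin n) ℤ) j)) :
            Fin (r + 2) → ZMod p) i.succ.succ = A.ac (spz x (H i)) := fun i => rfl
      have e2 : (Fin.cons z fun j : Fin (r + 1) => A.ac (MvPolynomial.aeval x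
            ((Fin.cons b H : Fin (r + 1) → MvPolynomial (Fin n) ℤ) j)) :
            Fin (r + 2) → ZMod p) 0 = z := rfl
      have e3 : (Fin.cons z fun j : Fin (r + 1) => A.ac (MvPolynomial.aeval x
            ((Fin.cons b H : Fin (r + 1) → MvPolynomial (Fin n) ℤ) j)) :
            Fin (r + 2) → ZMod p) 1 = A.ac B := rfl
      simp only [e1, e2, e3]
      have hB' : A.ac B ≠ 0 := ac_ne _ hB
      have e4 : ∀ i : Fin r, (∑ j : Fin (r + 2), (if i ∈ T then 0 else
          (if j = i.succ.succ then 1 else 0) - (if j = 1 then (N : ℤ) else 0)) *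
          (Fin.cons g0 fun j : Fin (r + 1) => A.v (MvPolynomial.aeval x
            ((Fin.cons b H : Fin (r + 1) → MvPolynomial (Fin n) ℤ) j)) :
            Fin (r + 2) → ℤ) j + 0) = A.v (((h i).map (spz x)).eval c) := by
        intro i
        rw [(hval c hB hc i).2, add_zero]
        by_cases hi : i ∈ T
        · rw [if_pos ((hT i).1 hi)]
          simp [hi]
        · rw [if_neg fun h0 => hi ((hT i).2 h0)]
          simp only [if_neg hi, sub_mul, ite_mul, one_mul, zero_mul, Finset.sum_sub_distrib,
            Finset.sum_ite_eq', Finset.mem_univ, if_true]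
          rfl
      have e5 : ∀ i : Fin r, A.ac (spz x (H i)) * z ^ N = A.ac (((h i).map (spz x)).eval c) := by
        intro i
        rw [hz, (hval c hB hc i).1]
      simp only [e4, e5]
      constructor
      · rintro ⟨-, h1⟩
        exact h1
      · intro h1
        refine ⟨⟨?_, fun i => ?_⟩, h1⟩
        · rw [hz, inv_mul_cancel₀ hB']
        · rw [hT i, A.ac_zero]
    have hmap : G.map (spz x) = Polynomial.C B * X + Polynomial.C (spz x a) := by
      conv_lhs => rw [hG1]
      rw [Polynomial.map_add, Polynomial.map_mul, map_C, map_C, map_X]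
    constructor
    · rintro ⟨c, hc1, hc2, hc3⟩
      rw [hmap] at hc1 hc2
      simp only [eval_add, eval_mul, eval_C, eval_X] at hc2
      have hB : B ≠ 0 := by
        intro h0
        rw [h0, zero_mul, zero_add] at hc2
        rw [h0, hc2] at hc1
        simp at hc1
      have hc : B * c = -spz x a := eq_neg_of_add_eq_zero_left hc2
      refine ⟨Finset.univ.filter fun i => spz x (H i) = 0, (A.ac B)⁻¹, 0, ?_⟩
      exact (hET _ _ 0 c hB hc (fun i => by simp) rfl).2 hc3
    · rintro ⟨T, z, g0, hz⟩
      have hz1 : z * A.ac B = 1 := hz.1.1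
      have hT : ∀ i : Fin r, (i ∈ T ↔ A.ac (spz x (H i)) = 0) := hz.1.2
      have hB : B ≠ 0 := by
        intro h0
        rw [h0, ac_z, mul_zero] at hz1
        exact zero_ne_one hz1
      have hc : B * (-spz x a / B) = -spz x a := mul_div_cancel₀ _ hB
      refine ⟨-spz x a / B, ?_, ?_, ?_⟩
      · rw [hmap]
        intro h0
        have h1 := congrArg (fun P => coeff P 1) h0
        simp at h1
        exact hB h1
      · rw [hmap]
        simp only [eval_add, eval_mul, eval_C, eval_X]
        rw [hc, neg_add_cancel]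
      · refine (hET T z g0 _ hB hc (fun i => ?_) (eq_inv_of_mul_eq_one_left hz1)).1 hz
        rw [hT i, A.ac_zero]

end Pool.Agent.FHQ.H25
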