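import Pool.Agent.FHQ.StmtsP

/-!
# Squad FHQ, row UBO: finite unions of boxes are closed under Boolean operations
-/

open scoped BigOperators

noncomputable section

namespace Pool.Agent.FHQ.H25

variable {r : ℕ}

theorem rd_true : RD r (fun _ _ => True) := by
  have h := RD.eq (0 : MvPolynomial (Fin r) ℤ)
  simp only [map_zero] at h
  exact h

theorem pd_true : PD r (fun _ => True) := by
  have h := PD.le (fun _ : Fin r => (0 : ℤ)) 0
  simp only [zero_mul, Finset.sum_const_zero, add_zero, le_refl] at h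
  exact h

theorem ub_congr {C C' : Cond r} (h : UB r C) (e : ∀ p a g, C' p a g ↔ C p a g) : UB r C' := by
  obtain ⟨L, hL⟩ := h
  exact ⟨L, fun p a g => (e p a g).trans (hL p a g)⟩

theorem ub_or {C C' : Cond r} (h : UB r C) (h' : UB r C') :
    UB r (fun p a g => C p a g ∨ C' p a g) := by
  obtain ⟨L, hL⟩ := h
  obtain ⟨L', hL'⟩ := h'
  refine ⟨L ++ L', fun p a g => ?_⟩
  change (C p a g ∨ C' p a g) ↔ _
  rw [hL, hL']
  constructor
  · rintro (⟨b, hb, h1⟩ | ⟨b, hb, h1⟩)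
    · exact ⟨b, List.mem_append_left _ hb, h1⟩
    · exact ⟨b, List.mem_append_right _ hb, h1⟩
  · rintro ⟨b, hb, h1⟩
    rcases List.mem_append.1 hb with h2 | h2
    · exact Or.inl ⟨b, h2, h1⟩
    · exact Or.inr ⟨b, h2, h1⟩

/-- the intersection of two boxes -/
def bx (b b' : Box r) : Box r where
  R := fun p a => b.R p a ∧ b'.R p a
  hR := RD.and b.hR b'.hR
  B := fun g => b.B g ∧ b'.B g
  hB := PD.and b.hB b'.hB

theorem ub_and {C C' : Cond r} (h : UB r C) (h' : UB r C') :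
    UB r (fun p a g => C p a g ∧ C' p a g) := by
  obtain ⟨L, hL⟩ := h
  obtain ⟨L', hL'⟩ := h'
  refine ⟨L.flatMap fun b => L'.map (bx b), fun p a g => ?_⟩
  change (C p a g ∧ C' p a g) ↔ _
  rw [hL, hL']
  constructor
  · rintro ⟨⟨b, hb, h1, h2⟩, b', hb', h1', h2'⟩
    exact ⟨bx b b', List.mem_flatMap.2 ⟨b, hb, List.mem_map.2 ⟨b', hb', rfl⟩⟩, ⟨h1, h1'⟩, h2, h2'⟩
  · rintro ⟨c, hc, h1, h2⟩
    obtain ⟨b, hb, hc⟩ := List.mem_flatMap.1 hc
    obtain ⟨b', hb', rfl⟩ := List.mem_map.1 hc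
    exact ⟨⟨b, hb, h1.1, h2.1⟩, b', hb', h1.2, h2.2⟩

theorem ub_box (b : Box r) : UB r (fun p a g => b.R p a ∧ b.B g) :=
  ⟨[b], fun p a g => by simp⟩

theorem ub_R {R : (p : ℕ) → (Fin r → ZMod p) → Prop} (h : RD r R) : UB r (fun p a _ => R p a) :=
  ub_congr (ub_box ⟨R, _, h, pd_true⟩) fun p a g => by simp

theorem ub_B {B : (Fin r → ℤ) → Prop} (h : PD r B) : UB r (fun _ _ g => B g) :=
  ub_congr (ub_box ⟨_, B, rd_true, h⟩) fun p a g => by simp

theorem ub_not_list (L : List (Box r)) :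
    UB r (fun p a g => ¬ ∃ b ∈ L, b.R p a ∧ b.B g) := by
  induction L with
  | nil => exact ub_congr (ub_B pd_true) fun p a g => by simp
  | cons b L ih =>
    refine ub_congr (ub_and (ub_or (ub_R b.hR.not) (ub_B b.hB.not)) ih) fun p a g => ?_
    simp only [List.mem_cons, exists_eq_or_imp, not_or, not_and_or]

theorem ub_not {C : Cond r} (h : UB r C) : UB r (fun p a g => ¬ C p a g) := by
  obtain ⟨L, hL⟩ := h
  exact ub_congr (ub_not_list L) fun p a g => not_congr (hL p a g)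

theorem ubo : UboStmt := fun _ _ _ h h' =>
  ⟨ub_or h h', ub_and h h', ub_not h, fun _ hR => ub_R hR, fun _ hB => ub_B hB⟩

end Pool.Agent.FHQ.H25
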